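import Pool.Agent.Helper94.US.Stm

set_option autoImplicit false

/-! # `∑ 1/φ(a)` over dyadic intervals -/

namespace Pool.Agent.Helper71.US

open Finset

theorem prod_Icc (N : ℕ) (hN : 1 ≤ N) :
    ∏ n ∈ Icc 2 N, (1 - ((n : ℝ) ^ 2)⁻¹) = ((N : ℝ) + 1) / (2 * N) := by
  induction N, hN using Nat.le_induction with
  | base => norm_num
  | succ n hn ih =>
    rw [Finset.prod_Icc_succ_top (by omega), ih]
    have h : (n : ℝ) ≠ 0 := by positivity
    have h' : ((n : ℝ) + 1) ≠ 0 := by positivity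
    push_cast
    field_simp
    ring

theorem prod_ge (S : Finset ℕ) (hS : ∀ n ∈ S, 2 ≤ n) :
    (1 : ℝ) / 2 ≤ ∏ n ∈ S, (1 - ((n : ℝ) ^ 2)⁻¹) := by
  obtain ⟨N, hN1, hN⟩ : ∃ N, 1 ≤ N ∧ S ⊆ Icc 2 N := by
    refine ⟨S.sup id + 1, by omega, fun n hn => ?_⟩
    rw [mem_Icc]
    have := Finset.le_sup (f := id) hn
    exact ⟨hS n hn, by simp only [id] at this; omega⟩
  have hf : ∀ n : ℕ, 2 ≤ n → 0 ≤ (1 - ((n : ℝ) ^ 2)⁻¹) ∧ (1 - ((n : ℝ) ^ 2)⁻¹) ≤ 1 := by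
    intro n hn
    have h1 : (1 : ℝ) ≤ (n : ℝ) ^ 2 := by
      have : (1 : ℝ) ≤ n := by exact_mod_cast (by omega : 1 ≤ n)
      nlinarith
    have h2 : ((n : ℝ) ^ 2)⁻¹ ≤ 1 := inv_le_one_of_one_le₀ h1
    have h3 : 0 ≤ ((n : ℝ) ^ 2)⁻¹ := by positivity
    constructor <;> linarith
  have h1 : (1 : ℝ) / 2 ≤ ∏ n ∈ Icc 2 N, (1 - ((n : ℝ) ^ 2)⁻¹) := by
    rw [prod_Icc N hN1, div_le_div_iff₀ (by norm_num) (by positivity)]
    linarith
  refine h1.trans ?_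
  rw [← Finset.prod_sdiff hN]
  have h2 : ∏ n ∈ Icc 2 N \ S, (1 - ((n : ℝ) ^ 2)⁻¹) ≤ 1 := by
    refine Finset.prod_le_one (fun n hn => (hf n ?_).1) (fun n hn => (hf n ?_).2)
    · exact (mem_Icc.1 (mem_sdiff.1 hn).1).1
    · exact (mem_Icc.1 (mem_sdiff.1 hn).1).1
  have h3 : 0 ≤ ∏ n ∈ S, (1 - ((n : ℝ) ^ 2)⁻¹) :=
    Finset.prod_nonneg fun n hn => (hf n (hS n hn)).1
  calc _ ≤ 1 * ∏ n ∈ S, (1 - ((n : ℝ) ^ 2)⁻¹) := mul_le_mul_of_nonneg_right h2 h3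
    _ = _ := one_mul _

/-- `∏_{p ∣ a} (1 + 1/p) ≤ ∑_{d ∣ a} 1/d` -/
theorem prod_add_le (a : ℕ) (ha : a ≠ 0) :
    ∏ p ∈ a.primeFactors, (1 + (p : ℝ)⁻¹) ≤ ∑ d ∈ a.divisors, (d : ℝ)⁻¹ := by
  have h1 : ∏ p ∈ a.primeFactors, (1 + (p : ℝ)⁻¹) =
      ∑ T ∈ a.primeFactors.powerset, ((∏ p ∈ T, p : ℕ) : ℝ)⁻¹ := by
    rw [Finset.prod_one_add]
    refine Finset.sum_congr rfl fun T _ => ?_
    rw [Nat.cast_prod, Finset.prod_inv_distrib]
  rw [h1]
  have hinj : Set.InjOn (fun T : Finset ℕ => ∏ p ∈ T, p)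
      (a.primeFactors.powerset : Set (Finset ℕ)) := by
    intro T hT T' hT' h
    have hp : ∀ T : Finset ℕ, T ⊆ a.primeFactors → (∏ p ∈ T, p).primeFactors = T := by
      intro T hT
      exact Nat.primeFactors_prod fun p hp => Nat.prime_of_mem_primeFactors (hT hp)
    have e1 := hp T (Finset.mem_powerset.1 hT)
    have e2 := hp T' (Finset.mem_powerset.1 hT')
    simp only at h
    rw [← e1, ← e2, h]
  rw [← Finset.sum_image (f := fun d : ℕ => (d : ℝ)⁻¹) hinj]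
  refine Finset.sum_le_sum_of_subset_of_nonneg ?_ fun i _ _ => by positivity
  intro d hd
  obtain ⟨T, hT, rfl⟩ := Finset.mem_image.1 hd
  rw [Nat.mem_divisors]
  refine ⟨?_, ha⟩
  exact (Finset.prod_dvd_prod_of_subset _ _ _ (Finset.mem_powerset.1 hT)).trans
    (Nat.prod_primeFactors_dvd a)

theorem inv_tot_le (a : ℕ) (ha : a ≠ 0) :
    (1 : ℝ) / (Nat.totient a) ≤ 2 / a * ∑ d ∈ a.divisors, (d : ℝ)⁻¹ := by
  have h1 : (Nat.totient a : ℝ) = a * ∏ p ∈ a.primeFactors, (1 - (p : ℝ)⁻¹) := by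
    have := Nat.totient_eq_mul_prod_factors a
    have h2 : ((Nat.totient a : ℚ) : ℝ) = ((a * ∏ p ∈ a.primeFactors, (1 - (p : ℚ)⁻¹) : ℚ) : ℝ) := by
      rw [this]
    push_cast at h2
    exact h2
  have hpos : 0 < (Nat.totient a : ℝ) := by
    exact_mod_cast Nat.totient_pos.2 (Nat.pos_of_ne_zero ha)
  have ha' : (0 : ℝ) < a := by exact_mod_cast Nat.pos_of_ne_zero ha
  have h2 : (1 : ℝ) / 2 ≤ (∏ p ∈ a.primeFactors, (1 - (p : ℝ)⁻¹)) *
      ∏ p ∈ a.primeFactors, (1 + (p : ℝ)⁻¹) := by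
    rw [← Finset.prod_mul_distrib]
    refine (prod_ge a.primeFactors fun n hn => (Nat.prime_of_mem_primeFactors hn).two_le).trans
      (le_of_eq (Finset.prod_congr rfl fun p _ => ?_))
    rw [← inv_pow]
    ring
  have h3 := prod_add_le a ha
  have h4 : 0 ≤ ∏ p ∈ a.primeFactors, (1 - (p : ℝ)⁻¹) := by
    refine Finset.prod_nonneg fun p hp => ?_
    have : (1 : ℝ) ≤ p := by exact_mod_cast (Nat.prime_of_mem_primeFactors hp).one_lt.le
    have := inv_le_one_of_one_le₀ this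
    linarith
  rw [div_mul_eq_mul_div, div_le_div_iff₀ hpos ha', one_mul]
  have h5 : (1 : ℝ) / 2 ≤ (∏ p ∈ a.primeFactors, (1 - (p : ℝ)⁻¹)) *
      ∑ d ∈ a.divisors, (d : ℝ)⁻¹ := h2.trans (mul_le_mul_of_nonneg_left h3 h4)
  rw [h1]
  have h6 := mul_le_mul_of_nonneg_left h5 ha'.le
  linarith

theorem sum_inv_sq (N : ℕ) (hN : 1 ≤ N) : ∑ d ∈ Icc 1 N, ((d : ℝ) ^ 2)⁻¹ ≤ 2 - 1 / (N : ℝ) := by
  induction N, hN using Nat.le_induction with
  | base => norm_num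
  | succ n hn ih =>
    rw [Finset.sum_Icc_succ_top (by omega)]
    have h0 : (0 : ℝ) < (n : ℝ) := by positivity
    have h1 : (0 : ℝ) < (n : ℝ) + 1 := by positivity
    have h3 : (((n : ℝ) + 1) ^ 2)⁻¹ ≤ 1 / (n : ℝ) - 1 / ((n : ℝ) + 1) := by
      rw [div_sub_div _ _ h0.ne' h1.ne', inv_eq_one_div,
        div_le_div_iff₀ (by positivity) (by positivity)]
      nlinarith
    push_cast
    linarith

theorem t_A1 : Pool.Agent.TH997.US.A1 := by
  refine ⟨8, by norm_num, fun r => ?_⟩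
  set N := 2 ^ (r + 1) with hN
  have hNpos : 0 < N := by positivity
  have hN1 : 1 ≤ N - 1 := by
    have : 2 ^ 1 ≤ N := Nat.pow_le_pow_right (by norm_num) (by omega)
    omega
  have h0 : ∀ a ∈ Ico (2 ^ r) N, a ≠ 0 := by
    intro a ha
    have := (mem_Ico.1 ha).1
    have h2 : 0 < 2 ^ r := by positivity
    omega
  have h1 : ∑ a ∈ Ico (2 ^ r) N, (1 : ℝ) / (Nat.totient a) ≤
      ∑ a ∈ Ico (2 ^ r) N, 2 / (2 : ℝ) ^ r * ∑ d ∈ a.divisors, (d : ℝ)⁻¹ := by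
    refine Finset.sum_le_sum fun a ha => (inv_tot_le a (h0 a ha)).trans ?_
    refine mul_le_mul_of_nonneg_right ?_ (Finset.sum_nonneg fun _ _ => by positivity)
    refine div_le_div_of_nonneg_left (by norm_num) (by positivity) ?_
    exact_mod_cast (mem_Ico.1 ha).1
  refine h1.trans ?_
  rw [← Finset.mul_sum]
  have h2 : ∑ a ∈ Ico (2 ^ r) N, ∑ d ∈ a.divisors, (d : ℝ)⁻¹ ≤
      ∑ a ∈ Ioc 0 (N - 1), ∑ d ∈ Icc 1 (N - 1), if d ∣ a then (d : ℝ)⁻¹ else 0 := by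
    refine (Finset.sum_le_sum_of_subset_of_nonneg (t := Ioc 0 (N - 1)) ?_ ?_).trans
      (Finset.sum_le_sum fun a ha => ?_)
    · intro a ha
      have := h0 a ha
      rw [mem_Ico] at ha
      rw [mem_Ioc]
      omega
    · intro a _ _
      exact Finset.sum_nonneg fun _ _ => by positivity
    · rw [← Finset.sum_filter]
      refine Finset.sum_le_sum_of_subset_of_nonneg ?_ fun _ _ _ => by positivity
      intro d hd
      rw [mem_Ioc] at ha
      have h3 := Nat.divisor_le hd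
      have h4 := Nat.pos_of_mem_divisors hd
      rw [mem_filter, mem_Icc]
      exact ⟨⟨h4, by omega⟩, Nat.dvd_of_mem_divisors hd⟩
  have h3 : ∑ a ∈ Ioc 0 (N - 1), ∑ d ∈ Icc 1 (N - 1), (if d ∣ a then (d : ℝ)⁻¹ else 0) ≤
      N * 2 := by
    rw [Finset.sum_comm]
    calc ∑ d ∈ Icc 1 (N - 1), ∑ a ∈ Ioc 0 (N - 1), (if d ∣ a then (d : ℝ)⁻¹ else 0)
        = ∑ d ∈ Icc 1 (N - 1), (((N - 1) / d : ℕ) : ℝ) * (d : ℝ)⁻¹ := by
          refine Finset.sum_congr rfl fun d _ => ?_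
          rw [← Finset.sum_filter, Finset.sum_const, nsmul_eq_mul, Nat.Ioc_filter_dvd_card_eq_div]
      _ ≤ ∑ d ∈ Icc 1 (N - 1), (N : ℝ) * ((d : ℝ) ^ 2)⁻¹ := by
          refine Finset.sum_le_sum fun d hd => ?_
          have hd1 : (0 : ℝ) < d := by
            have := (mem_Icc.1 hd).1
            positivity
          have h5 : (((N - 1) / d : ℕ) : ℝ) ≤ (N : ℝ) / d := by
            refine (Nat.cast_div_le).trans ?_
            gcongr
            exact Nat.sub_le _ _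
          calc (((N - 1) / d : ℕ) : ℝ) * (d : ℝ)⁻¹ ≤ (N : ℝ) / d * (d : ℝ)⁻¹ :=
                mul_le_mul_of_nonneg_right h5 (by positivity)
            _ = _ := by field_simp
      _ = N * ∑ d ∈ Icc 1 (N - 1), ((d : ℝ) ^ 2)⁻¹ := by rw [Finset.mul_sum]
      _ ≤ N * 2 := by
          refine mul_le_mul_of_nonneg_left ((sum_inv_sq (N - 1) hN1).trans ?_) (by positivity)
          have : (0 : ℝ) ≤ 1 / ((N - 1 : ℕ) : ℝ) := by positivity
          linarith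
  calc _ ≤ 2 / (2 : ℝ) ^ r * (N * 2) := by
        refine mul_le_mul_of_nonneg_left (h2.trans h3) (by positivity)
    _ = 8 := by
        rw [hN]
        push_cast
        rw [pow_succ]
        field_simp
        norm_num

end Pool.Agent.Helper71.US
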