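import Pool.Agent.Helper94.US.Stm

set_option autoImplicit false

/-! # Counting `n` with `n % a ∈ I` and `n % b` in an interval -/

namespace Pool.Agent.Helper71.US

open Finset

theorem card_y (lo hi v g : ℕ) (hg : 0 < g) :
    (((Ico lo hi).filter (fun y => y ≡ v [MOD g])).card : ℝ) ≤ ((hi - lo : ℕ) : ℝ) / g + 1 := by
  have hg' : (0 : ℝ) < g := by exact_mod_cast hg
  have h := Nat.Ico_filter_modEq_card lo hi hg v
  rcases le_total hi lo with hl | hl
  · rw [Finset.Ico_eq_empty_of_le hl]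
    simp only [Finset.filter_empty, Finset.card_empty, Nat.cast_zero]
    positivity
  · have h1 : ((⌈((hi : ℚ) - v) / g⌉ - ⌈((lo : ℚ) - v) / g⌉ : ℤ) : ℚ) ≤ ((hi : ℚ) - lo) / g + 1 := by
      have e1 := Int.ceil_lt_add_one (((hi : ℚ) - v) / g)
      have e2 := Int.le_ceil (((lo : ℚ) - v) / g)
      push_cast
      have e3 : ((hi : ℚ) - lo) / g = ((hi : ℚ) - v) / g - ((lo : ℚ) - v) / g := by ring
      rw [e3]
      linarith
    have h2 : (0 : ℚ) ≤ ((hi : ℚ) - lo) / g + 1 := by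
      have : (lo : ℚ) ≤ hi := by exact_mod_cast hl
      have h3 : (0 : ℚ) ≤ ((hi : ℚ) - lo) / g := div_nonneg (by linarith) (by positivity)
      linarith
    have h3 : ((((Ico lo hi).filter (fun y => y ≡ v [MOD g])).card : ℤ) : ℚ) ≤
        ((hi : ℚ) - lo) / g + 1 := by
      rw [h]
      push_cast
      push_cast at h1
      exact max_le h1 h2
    have h4 : ((((Ico lo hi).filter (fun y => y ≡ v [MOD g])).card : ℚ) : ℝ) ≤
        ((((hi : ℚ) - lo) / g + 1 : ℚ) : ℝ) := by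
      exact_mod_cast h3
    push_cast at h4
    rw [Nat.cast_sub hl]
    exact h4

theorem card_n (M r v : ℕ) (hr : 0 < r) (h : r ∣ M) :
    ((range M).filter (fun n => n ≡ v [MOD r])).card = M / r := by
  rw [← Nat.count_eq_card_filter_range, Nat.count_modEq_card M hr v]
  rw [Nat.mod_eq_zero_of_dvd h, if_neg (by omega), add_zero]

theorem card_xy (a b M x y : ℕ) (ha : 0 < a) (hb : 0 < b) (haM : a ∣ M) (hbM : b ∣ M) :
    ((range M).filter (fun n => n % a = x ∧ n % b = y)).card ≤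
      if y ≡ x [MOD Nat.gcd a b] then M / Nat.lcm a b else 0 := by
  by_cases hne : ∃ n0, n0 % a = x ∧ n0 % b = y
  · obtain ⟨n0, h1, h2⟩ := hne
    have hmod : y ≡ x [MOD Nat.gcd a b] := by
      have e1 : n0 ≡ x [MOD Nat.gcd a b] := by
        have : n0 ≡ x [MOD a] := by rw [← h1]; exact (Nat.mod_modEq n0 a).symm
        exact this.of_dvd (Nat.gcd_dvd_left a b)
      have e2 : n0 ≡ y [MOD Nat.gcd a b] := by
        have : n0 ≡ y [MOD b] := by rw [← h2]; exact (Nat.mod_modEq n0 b).symm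
        exact this.of_dvd (Nat.gcd_dvd_right a b)
      exact e2.symm.trans e1
    rw [if_pos hmod, ← card_n M (Nat.lcm a b) n0 (Nat.lcm_pos ha hb) (Nat.lcm_dvd haM hbM)]
    refine Finset.card_le_card fun n hn => ?_
    rw [mem_filter] at hn ⊢
    refine ⟨hn.1, ?_⟩
    have e1 : n ≡ n0 [MOD a] := by rw [Nat.ModEq, hn.2.1, h1]
    have e2 : n ≡ n0 [MOD b] := by rw [Nat.ModEq, hn.2.2, h2]
    rw [Nat.modEq_iff_dvd] at e1 e2 ⊢
    have := Int.coe_lcm_dvd e1 e2
    simpa using this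
  · have : (range M).filter (fun n => n % a = x ∧ n % b = y) = ∅ := by
      rw [Finset.filter_eq_empty_iff]
      intro n _ h
      exact hne ⟨n, h⟩
    rw [this, Finset.card_empty]
    exact Nat.zero_le _

theorem t_A4a : Pool.Agent.Helper94.US.A4a := by
  classical
  intro a b M lo hi I ha hb haM hbM hI hhi
  have hg : 0 < Nat.gcd a b := Nat.gcd_pos_of_pos_left b ha
  have hg' : (0 : ℝ) < (Nat.gcd a b : ℝ) := by exact_mod_cast hg
  have ha' : (0 : ℝ) < a := by exact_mod_cast ha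
  have hb' : (0 : ℝ) < b := by exact_mod_cast hb
  have h1 : ((range M).filter (fun n => n % a ∈ I ∧ lo ≤ n % b ∧ n % b < hi)).card ≤
      ∑ x ∈ I, ∑ y ∈ Ico lo hi, ((range M).filter (fun n => n % a = x ∧ n % b = y)).card := by
    rw [← Finset.sum_product']
    refine (Finset.card_le_card (t := (I ×ˢ Ico lo hi).biUnion fun q =>
      (range M).filter (fun n => n % a = q.1 ∧ n % b = q.2)) ?_).trans Finset.card_biUnion_le
    intro n hn
    rw [mem_filter] at hn
    rw [mem_biUnion]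
    refine ⟨(n % a, n % b), ?_, ?_⟩
    · rw [mem_product, mem_Ico]
      exact ⟨hn.2.1, hn.2.2⟩
    · rw [mem_filter]
      exact ⟨hn.1, rfl, rfl⟩
  have h2 : ∀ x ∈ I, ((∑ y ∈ Ico lo hi,
      ((range M).filter (fun n => n % a = x ∧ n % b = y)).card : ℕ) : ℝ) ≤
      (((hi - lo : ℕ) : ℝ) / (Nat.gcd a b) + 1) * ((M : ℝ) * Nat.gcd a b / (a * b)) := by
    intro x _
    have h3 : (∑ y ∈ Ico lo hi,
        ((range M).filter (fun n => n % a = x ∧ n % b = y)).card) ≤
        ((Ico lo hi).filter (fun y => y ≡ x [MOD Nat.gcd a b])).card * (M / Nat.lcm a b) := by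
      refine (Finset.sum_le_sum fun y _ => card_xy a b M x y ha hb haM hbM).trans ?_
      rw [← Finset.sum_filter, Finset.sum_const, smul_eq_mul]
    have h4 : ((M / Nat.lcm a b : ℕ) : ℝ) = (M : ℝ) * Nat.gcd a b / (a * b) := by
      have hl : (0 : ℝ) < (Nat.lcm a b : ℝ) := by exact_mod_cast Nat.lcm_pos ha hb
      rw [Nat.cast_div (Nat.lcm_dvd haM hbM) hl.ne', div_eq_div_iff hl.ne' (by positivity)]
      have h5 : ((Nat.gcd a b * Nat.lcm a b : ℕ) : ℝ) = ((a * b : ℕ) : ℝ) := by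
        rw [Nat.gcd_mul_lcm]
      push_cast at h5
      rw [← h5]
      ring
    calc ((∑ y ∈ Ico lo hi,
        ((range M).filter (fun n => n % a = x ∧ n % b = y)).card : ℕ) : ℝ) ≤
        ((((Ico lo hi).filter (fun y => y ≡ x [MOD Nat.gcd a b])).card *
          (M / Nat.lcm a b) : ℕ) : ℝ) := by exact_mod_cast h3
      _ = (((Ico lo hi).filter (fun y => y ≡ x [MOD Nat.gcd a b])).card : ℝ) *
          ((M : ℝ) * Nat.gcd a b / (a * b)) := by rw [Nat.cast_mul, h4]
      _ ≤ _ := mul_le_mul_of_nonneg_right (card_y lo hi x _ hg) (by positivity)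
  calc (((range M).filter (fun n => n % a ∈ I ∧ lo ≤ n % b ∧ n % b < hi)).card : ℝ) ≤
      ((∑ x ∈ I, ∑ y ∈ Ico lo hi,
        ((range M).filter (fun n => n % a = x ∧ n % b = y)).card : ℕ) : ℝ) := by
        exact_mod_cast h1
    _ = ∑ x ∈ I, ((∑ y ∈ Ico lo hi,
        ((range M).filter (fun n => n % a = x ∧ n % b = y)).card : ℕ) : ℝ) := by
        rw [Nat.cast_sum]
    _ ≤ ∑ x ∈ I, (((hi - lo : ℕ) : ℝ) / (Nat.gcd a b) + 1) *
        ((M : ℝ) * Nat.gcd a b / (a * b)) := Finset.sum_le_sum h2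
    _ = _ := by
        rw [Finset.sum_const, nsmul_eq_mul]
        field_simp

end Pool.Agent.Helper71.US
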